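import Mathlib

open Filter Topology Function Set Real

namespace Pool.Agent.H.MP_975ca8_an

lemma fixOf {E : Type*} [NormedAddCommGroup E] {f : E → E} {K : Set E} (hK : IsCompact K)
    (hf : Continuous f) (h : ∀ ε, 0 < ε → ∃ z ∈ K, dist (f z) z ≤ ε) : ∃ z, f z = z := by
  obtain ⟨z0, h0, -⟩ := h 1 one_pos
  obtain ⟨z, -, hz⟩ := hK.exists_isMinOn ⟨z0, h0⟩ (hf.dist continuous_id).continuousOn
  refine ⟨z, dist_le_zero.1 (le_of_forall_pos_le_add fun ε hε => ?_)⟩
  obtain ⟨w, hw, h1⟩ := h ε hε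
  exact (hz hw).trans (by simpa using h1)

lemma approx {E : Type*} [NormedAddCommGroup E] [NormedSpace ℝ E] {f : E → E} {K : Set E}
    (hK : IsComplete K) (hc : Convex ℝ K) (hf : LipschitzWith 1 f) (hm : MapsTo f K K) {z0 : E}
    (h0 : z0 ∈ K) {t : ℝ} (t0 : 0 < t) (t1 : t ≤ 1) : ∃ z ∈ K, z = t • z0 + (1 - t) • f z := by
  have hm' : MapsTo (fun z => t • z0 + (1 - t) • f z) K K := fun z hz =>
    hc h0 (hm hz) t0.le (by linarith) (by ring)
  have hl : LipschitzWith ⟨1 - t, by linarith⟩ fun z => t • z0 + (1 - t) • f z :=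
    LipschitzWith.of_dist_le_mul fun a b => by
      rw [dist_add_left, dist_smul₀, Real.norm_of_nonneg (by linarith)]
      exact mul_le_mul_of_nonneg_left (by simpa using hf.dist_le_mul a b) (by linarith)
  obtain ⟨z, hz, h1, -⟩ := ContractingWith.exists_fixedPoint' hK hm' ⟨show (1 - t : ℝ) < 1 by
    linarith, hl.lipschitzOnWith.mapsToRestrict hm'⟩ h0 (edist_ne_top _ _)
  exact ⟨z, hz, h1.symm⟩

lemma lip {b u v u' v' ρ : ℝ} (hb : 0 ≤ b) (hu : |u - u'| ≤ ρ) (hv : |v - v'| ≤ ρ) :
    |-log (b * exp u + exp v) - -log (b * exp u' + exp v')| ≤ ρ := by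
  have key : ∀ {u v u' v' : ℝ}, u ≤ u' + ρ → v ≤ v' + ρ →
      log (b * exp u + exp v) ≤ log (b * exp u' + exp v') + ρ := fun {u v u' v'} h1 h2 => by
    rw [← log_exp ρ, ← log_mul (by positivity) (exp_pos _).ne', add_mul, mul_assoc, ← exp_add,
      ← exp_add]
    exact log_le_log (by positivity)
      (add_le_add (mul_le_mul_of_nonneg_left (exp_le_exp.2 h1) hb) (exp_le_exp.2 h2))
  rw [abs_le] at *
  constructor <;> linarith [key (u := u) (u' := u') (v := v) (v' := v') (by linarith) (by linarith),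
    key (u := u') (u' := u) (v := v') (v' := v) (by linarith) (by linarith)]

variable {k p q : ℕ} {B : ZMod k → ℝ} {x : ℤ → ℝ}

/-- Positive solutions of x (n + 1) = 1 / (B n * x (n - p) + x (n - q)). -/
def Sol (p q : ℕ) (B : ZMod k → ℝ) (x : ℤ → ℝ) : Prop :=
  (∀ i : ℤ, -q ≤ i → i ≤ 0 → 0 < x i) ∧
    ∀ n : ℤ, 0 ≤ n → x (n + 1) = 1 / (B n * x (n - p) + x (n - q))

/-- The cyclic system has a positive solution. -/
def Per (p q : ℕ) (B : ZMod k → ℝ) : Prop :=
  ∃ z : ZMod k → ℝ, (∀ j, 0 < z j) ∧ ∀ j, z (j + 1) * (B j * z (j - p) + z (j - q)) = 1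

lemma ind {P : ℤ → Prop} (hpq : p ≤ q) (h0 : ∀ i : ℤ, -q ≤ i → i ≤ 0 → P i)
    (hs : ∀ n : ℤ, 0 ≤ n → P (n - p) → P (n - q) → P (n + 1)) (n : ℤ) (hn : -q ≤ n) : P n := by
  induction n using Int.strongRec (m := 1) with
  | lt n h => exact h0 n hn (by omega)
  | ge n h ih =>
    simpa using hs (n - 1) (by omega) (ih _ (by omega) (by omega)) (ih _ (by omega) (by omega))

lemma Sol.pos (S : Sol p q B x) (hpq : p ≤ q) (hB : ∀ j, 0 ≤ B j) : ∀ n : ℤ, -q ≤ n → 0 < x n :=
  ind hpq S.1 fun n hn h1 h2 => by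
    have := hB (n : ZMod k)
    rw [S.2 n hn]
    positivity

lemma bdd [NeZero k] (S : Sol p q B x) (hpq : p ≤ q) (hB : ∀ j, 0 ≤ B j) (h : Per p q B) :
    BddAbove (x '' Ici (-q)) := by
  obtain ⟨z, z0, hz⟩ := h
  obtain ⟨t, ht⟩ := ((finite_Icc (-q : ℤ) 0).image fun i => max (x i / z i) (z i / x i)).bddAbove
  obtain ⟨Z, hZ⟩ := (finite_range z).bddAbove
  have key := ind (P := fun i => x i ≤ t * z i ∧ z i ≤ t * x i) hpq (fun i h1 h2 => by
    have := max_le_iff.1 (ht ⟨i, ⟨h1, h2⟩, rfl⟩)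
    exact ⟨(div_le_iff₀ (z0 _)).1 this.1, (div_le_iff₀ (S.1 i h1 h2)).1 this.2⟩)
    fun n hn h1 h2 => by
      have b := hB (n : ZMod k)
      have p1 := S.pos hpq hB (n - p) (by omega)
      have p2 := S.pos hpq hB (n - q) (by omega)
      have e := hz n
      have p3 := z0 (n + 1)
      push_cast at h1 h2 ⊢
      rw [S.2 n hn, div_le_iff₀ (by positivity), mul_one_div, le_div_iff₀ (by positivity)]
      have a1 := mul_le_mul_of_nonneg_left
        (add_le_add (mul_le_mul_of_nonneg_left h1.1 b) h2.1) p3.le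
      have a2 := mul_le_mul_of_nonneg_left
        (add_le_add (mul_le_mul_of_nonneg_left h1.2 b) h2.2) p3.le
      exact ⟨by linear_combination a2 - e, by linear_combination a1 + t * e⟩
  refine ⟨|t| * Z, ?_⟩
  rintro _ ⟨n, hn, rfl⟩
  exact (key n hn).1.trans (mul_le_mul (le_abs_self t) (hZ ⟨_, rfl⟩) (z0 _).le (abs_nonneg t))

/-- The logarithmic form of the cyclic system. -/
noncomputable def F (p q : ℕ) (B : ZMod k → ℝ) (w : ZMod k → ℝ) (j : ZMod k) : ℝ :=
  -log (B (j - 1) * exp (w (j - 1 - p)) + exp (w (j - 1 - q)))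

lemma F_lip [NeZero k] (hB : ∀ j, 0 ≤ B j) : LipschitzWith 1 (F p q B) :=
  LipschitzWith.of_dist_le_mul fun a b => by
    rw [NNReal.coe_one, one_mul, dist_pi_le_iff dist_nonneg]
    exact fun j => lip (hB _) (dist_le_pi_dist a b _) (dist_le_pi_dist a b _)

lemma perOf (hB : ∀ j, 0 ≤ B j) (h : ∃ w, F p q B w = w) : Per p q B := by
  obtain ⟨w, hw⟩ := h
  refine ⟨fun j => exp (w j), fun j => exp_pos _, fun j => ?_⟩
  have := hB j
  beta_reduce
  rw [← congrFun hw (j + 1), F, add_sub_cancel_right, exp_neg, exp_log (by positivity)]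
  exact inv_mul_cancel₀ (by positivity)

lemma nec [NeZero k] (S : Sol p q B x) (hpq : p ≤ q) (hB : ∀ j, 0 ≤ B j)
    (h : BddAbove (x '' Ici (-q))) : Per p q B := by
  obtain ⟨M, hM⟩ := h
  obtain ⟨C, hC⟩ := (finite_range B).bddAbove
  have h1 : ∀ n : ℤ, -q ≤ n → x n ≤ M := fun n hn => hM ⟨n, hn, rfl⟩
  have pos := S.pos hpq hB
  have M0 := (pos 0 (by omega)).trans_le (h1 0 (by omega))
  have C0 := (hB 0).trans (hC ⟨0, rfl⟩)
  obtain ⟨R, hR⟩ : ∃ R, ∀ n : ℤ, 1 ≤ n → |log (x n)| ≤ R :=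
    ⟨|log M| + |log (C * M + M)|, fun n hn => by
      have a1 := log_le_log (pos n (by omega)) (h1 n (by omega))
      have a2 : -log (C * M + M) ≤ log (x n) := by
        have := S.2 (n - 1) (by omega)
        have b := hB ((n - 1 : ℤ) : ZMod k)
        have p1 := pos (n - 1 - p) (by omega)
        have p2 := pos (n - 1 - q) (by omega)
        rw [sub_add_cancel] at this
        rw [this, one_div, log_inv, neg_le_neg_iff]
        exact log_le_log (by positivity) (add_le_add (mul_le_mul (hC ⟨_, rfl⟩)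
          (h1 _ (by omega)) p1.le C0) (h1 _ (by omega)))
      rw [abs_le]
      constructor <;> linarith [le_abs_self (log M), le_abs_self (log (C * M + M)),
        abs_nonneg (log M), abs_nonneg (log (C * M + M))]⟩
  set K : Set (ZMod k → ℝ) := {w | ∀ᶠ n : ℤ in atTop, |w n - log (x n)| ≤ R} with hK
  have K0 : 0 ∈ K := (eventually_ge_atTop 1).mono fun n hn => by simpa using hR n hn
  have Kc : Convex ℝ K := fun a ha b hb s t hs ht hst => (ha.and hb).mono fun n hn => by
    have := convex_closedBall (log (x n)) R hn.1 hn.2 hs ht hst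
    exact this
  have Km : MapsTo (F p q B) K K := fun w hw => by
    have t : ∀ d : ℤ, Tendsto (fun n : ℤ => n - 1 - d) atTop atTop := fun d =>
      tendsto_atTop_add_const_right _ _ (tendsto_atTop_add_const_right _ _ tendsto_id)
    filter_upwards [(t p).eventually hw, (t q).eventually hw, eventually_ge_atTop 1] with n a b hn
    have := lip (hB ((n - 1 : ℤ) : ZMod k)) a b
    rw [exp_log (pos _ (by omega)), exp_log (pos _ (by omega)), ← log_inv (_ * x _ + _),
      ← one_div, ← S.2 (n - 1) (by omega), sub_add_cancel] at this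
    simpa [F] using this
  have Kb : K ⊆ Metric.closedBall 0 (2 * R) := fun w hw => by
    have R0 := (abs_nonneg _).trans (hR 1 le_rfl)
    rw [mem_closedBall_zero_iff, pi_norm_le_iff_of_nonneg (by positivity)]
    intro j
    obtain ⟨N, hN⟩ := eventually_atTop.1 (hw.and (eventually_ge_atTop 1))
    have := hN (j.val + k * N.toNat) (by have := NeZero.pos k; nlinarith [Int.self_le_toNat N])
    have e : (((j.val + k * N.toNat : ℤ)) : ZMod k) = j := by simp
    rw [e] at this
    have h2 := abs_le.1 (hR _ this.2)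
    have h3 := abs_le.1 this.1
    exact abs_le.2 ⟨by linarith, by linarith⟩
  have Kb' := closure_minimal Kb Metric.isClosed_closedBall
  refine perOf hB (fixOf (isCompact_closedBall 0 (2 * R)) (F_lip hB).continuous fun ε hε => ?_)
  have t0 : 0 < ε / (ε + |2 * R|) := by positivity
  obtain ⟨z, hz, e⟩ := approx isClosed_closure.isComplete Kc.closure (F_lip hB)
    (Km.closure (F_lip hB).continuous) (subset_closure K0) t0
    ((div_le_one (by positivity)).2 (le_add_of_nonneg_right (abs_nonneg _)))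
  refine ⟨z, Kb' hz, ?_⟩
  have := mem_closedBall_zero_iff.1 (Kb' (Km.closure (F_lip hB).continuous hz))
  rw [dist_eq_norm, show F p q B z - z = (ε / (ε + |2 * R|)) • F p q B z by
    nth_rewrite 2 [e]; module, norm_smul, Real.norm_of_nonneg t0.le, div_mul_eq_mul_div,
    div_le_iff₀ (by positivity)]
  exact mul_le_mul_of_nonneg_left (by linarith [le_abs_self (2 * R)]) hε.le

lemma exSol (p q : ℕ) (B : ZMod k → ℝ) : ∃ x, Sol p q B x := by
  let g : ℕ → ℤ → ℝ := fun m => m.rec (fun _ => 1) fun m y =>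
    update y (m + 1) (1 / (B m * y (m - p) + y (m - q)))
  have h : ∀ (m : ℕ) (i : ℤ), i ≤ m → g m i = g i.toNat i := fun m => by
    induction m with
    | zero => intro i hi; rw [show i.toNat = 0 by omega]
    | succ m ih =>
      intro i hi
      rcases eq_or_ne i (m + 1) with rfl | h
      · rw [show (m + 1 : ℤ).toNat = m + 1 by omega]
      · exact (update_of_ne h _ _).trans (ih i (by omega))
  refine ⟨fun i => g i.toNat i, fun i _ hi => by
    beta_reduce; rw [show i.toNat = 0 by omega]; exact one_pos,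
    fun n hn => ?_⟩
  obtain ⟨n, rfl⟩ := Int.eq_ofNat_of_zero_le hn
  simp only [show (n + 1 : ℤ).toNat = n + 1 by omega, ← h n (n - p) (by omega),
    ← h n (n - q) (by omega), Int.cast_natCast]
  exact update_self _ _ _

lemma coprime [NeZero k] (hB : ∀ j, 0 < B j) (hk : k.Coprime (p + q + 2)) : Per p q B := by
  have hB' := fun j => (hB j).le
  obtain ⟨c, hc⟩ := (finite_range fun j => max |log (B j)| |log (B j + 1)|).bddAbove
  have c1 : ∀ j, |log (B j)| ≤ c ∧ |log (B j + 1)| ≤ c := fun j => max_le_iff.1 (hc ⟨j, rfl⟩)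
  have c0 := (abs_nonneg _).trans (c1 0).1
  have lo : ∀ w j, w (j - 1 - p) ≤ c - F p q B w j ∧ w (j - 1 - q) ≤ c - F p q B w j :=
    fun w j => by
    have := hB (j - 1)
    have a1 := log_le_log (by positivity) (le_add_of_nonneg_right (exp_pos (w (j - 1 - q))).le :
      B (j - 1) * exp (w (j - 1 - p)) ≤ _)
    have a2 := log_le_log (exp_pos _) (le_add_of_nonneg_left (by positivity) :
      exp (w (j - 1 - q)) ≤ B (j - 1) * exp (w (j - 1 - p)) + _)
    rw [log_mul this.ne' (exp_pos _).ne', log_exp] at a1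
    rw [log_exp] at a2
    unfold F
    constructor <;> linarith [(abs_le.1 (c1 (j - 1)).1).1]
  have up : ∀ w j, -F p q B w j - c ≤ max (w (j - 1 - p)) (w (j - 1 - q)) := fun w j => by
    have := hB (j - 1)
    have a1 := log_le_log (by positivity) (add_le_add (mul_le_mul_of_nonneg_left (exp_le_exp.2
      (le_max_left (w (j - 1 - p)) (w (j - 1 - q)))) this.le)
      (exp_le_exp.2 (le_max_right (w (j - 1 - p)) (w (j - 1 - q)))))
    rw [← add_one_mul, log_mul (by positivity) (exp_pos _).ne', log_exp] at a1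
    unfold F
    linarith [(abs_le.1 (c1 (j - 1)).2).2]
  have bound : ∀ (t : ℝ) w, 0 < t → t ≤ 1 → w = t • (0 : ZMod k → ℝ) + (1 - t) • F p q B w →
      ‖w‖ ≤ (4 * k + 4) * c := fun t w t0 t1 e => le_of_not_gt fun ha => by
    have e1 : ∀ j, w j = (1 - t) * F p q B w j := fun j => by simpa using congrFun e j
    have k0 : (0 : ℝ) ≤ k := Nat.cast_nonneg k
    have s1 : ∀ j s, 0 < s → s ≤ w j → w (j - 1 - p) ≤ c - s ∧ w (j - 1 - q) ≤ c - s :=
      fun j s s0 hs => by
      have : s ≤ F p q B w j := by have := e1 j; nlinarith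
      exact ⟨by linarith [(lo w j).1], by linarith [(lo w j).2]⟩
    have s2 : ∀ j s, 0 < s → w j ≤ -s → s - c ≤ w (j - 1 - p) ∨ s - c ≤ w (j - 1 - q) :=
      fun j s s0 hs => by
      have : F p q B w j ≤ -s := by have := e1 j; nlinarith
      exact le_max_iff.1 (by linarith [up w j])
    obtain ⟨u, hu⟩ : ∃ u, ‖w‖ - c ≤ w u := by
      obtain ⟨j, -, hj⟩ := Finset.exists_max_image Finset.univ (fun j => |w j|) ⟨0, by simp⟩
      have : ‖w‖ ≤ |w j| := (pi_norm_le_iff_of_nonneg (abs_nonneg _)).2 fun i => hj i (by simp)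
      rcases le_abs.1 this with h | h
      · exact ⟨j, by linarith⟩
      · rcases s2 j ‖w‖ (by nlinarith) (by linarith) with h | h <;> exact ⟨_, h⟩
    have run : ∀ r : ℕ, r ≤ k → w (u - 1 - q - r * (p + q + 2 : ℕ)) ≤ (2 * r + 2) * c - ‖w‖ :=
      fun r => by
      induction r with
      | zero => exact fun _ => by simpa using ((s1 u _ (by nlinarith) hu).2).trans (by linarith)
      | succ r ih =>
        intro hr
        have r0 : (0 : ℝ) ≤ r := Nat.cast_nonneg r
        have rk : (r : ℝ) ≤ k := Nat.cast_le.2 (by omega)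
        have p1 : 0 < ‖w‖ - (2 * r + 2) * c - c := by nlinarith
        rcases s2 _ (‖w‖ - (2 * r + 2) * c) (by linarith)
          ((ih (by omega)).trans_eq (neg_sub _ _).symm) with h | h
        · convert ((s1 _ _ p1 h).2) using 1
          · congr 1; push_cast; ring
          · push_cast; ring
        · convert ((s1 _ _ p1 h).1) using 1
          · congr 1; push_cast; ring
          · push_cast; ring
    set r := (-(1 + q) * ((ZMod.unitOfCoprime _ hk.symm)⁻¹ : (ZMod k)ˣ) : ZMod k)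
    have := run r.val (ZMod.val_lt r).le
    rw [ZMod.natCast_zmod_val, ← ZMod.coe_unitOfCoprime _ hk.symm, Units.inv_mul_cancel_right,
      show u - 1 - q - -(1 + q) = u by ring] at this
    have rk : (r.val : ℝ) ≤ k := Nat.cast_le.2 (ZMod.val_lt r).le
    nlinarith
  refine perOf hB' (fixOf (isCompact_closedBall 0 ((4 * k + 4) * c)) (F_lip hB').continuous
    fun ε hε => ?_)
  set D := (4 * k + 4) * c + ‖F p q B 0‖
  have D0 : 0 ≤ D := by positivity
  have t0 : 0 < ε / (ε + D) := by positivity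
  have t1 : ε / (ε + D) ≤ 1 := (div_le_one (by positivity)).2 (le_add_of_nonneg_right D0)
  obtain ⟨z, -, e⟩ := approx isComplete_univ convex_univ (F_lip (p := p) (q := q) hB')
    (mapsTo_univ _ _) (mem_univ 0) t0 t1
  have hz := bound _ z t0 t1 e
  refine ⟨z, mem_closedBall_zero_iff.2 hz, ?_⟩
  have h1 := (F_lip (p := p) (q := q) hB').dist_le_mul z 0
  rw [NNReal.coe_one, one_mul, dist_zero_right, dist_eq_norm] at h1
  rw [dist_eq_norm, show F p q B z - z = (ε / (ε + D)) • F p q B z by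
    nth_rewrite 2 [e]; module, norm_smul, Real.norm_of_nonneg t0.le, div_mul_eq_mul_div,
    div_le_iff₀ (by positivity)]
  exact mul_le_mul_of_nonneg_left (by linarith [norm_le_insert' (F p q B z) (F p q B 0)]) hε.le

lemma prod (hB : ∀ j, 0 < B j) (h : Per p q B) (hk : 0 < k) (j : ZMod k) :
    1 < ∏ i ∈ Finset.range k,
      (B (j + i * (p + q + 2) + (q + 1)) + 1 / B (j + i * (p + q + 2))) := by
  obtain ⟨z, z0, hz⟩ := h
  have one : ∀ j, z (j - p) < z (j + (p + q + 2) - p) * (B (j + (q + 1)) + 1 / B j) := fun j => by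
    have e1 := hz j
    have e2 := hz (j - p + q)
    have e3 := hz (j + (q + 1))
    rw [add_sub_cancel_right] at e2
    rw [show j + (q + 1) + 1 = j + (p + q + 2) - p by ring, show j + (q + 1) - p = j - p + q + 1 by
      ring, show j + (q + 1) - q = j + 1 by ring] at e3
    have a := z0 (j - p)
    have b := hB j
    have b' := hB (j + (q + 1))
    have h1 : z (j + 1) * z (j - p) < 1 / B j := by
      rw [lt_div_iff₀ b]; nlinarith [mul_pos (z0 (j + 1)) (z0 (j - q))]
    have h2 : z (j - p + q + 1) * z (j - p) ≤ 1 := by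
      nlinarith [mul_pos (z0 (j - p + q + 1)) (mul_pos (hB (j - p + q)) (z0 (j - p + q - p)))]
    have c := z0 (j + (p + q + 2) - p)
    nlinarith [mul_lt_mul_of_pos_left (add_lt_add_of_le_of_lt (mul_le_mul_of_nonneg_left h2 b'.le)
      h1) c]
  have key : ∀ n : ℕ, z (j - p) < z (j + (n + 1 : ℕ) * (p + q + 2) - p) * ∏ i ∈ Finset.range (n + 1),
      (B (j + i * (p + q + 2) + (q + 1)) + 1 / B (j + i * (p + q + 2))) := fun n => by
    induction n with
    | zero => simpa using one j
    | succ n ih =>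
      rw [Finset.prod_range_succ, mul_comm (∏ _ ∈ _, _), ← mul_assoc]
      refine ih.trans (mul_lt_mul_of_pos_right ?_ (Finset.prod_pos fun i _ =>
        add_pos (hB _) (one_div_pos.2 (hB _))))
      rw [show j + (n + 1 + 1 : ℕ) * (p + q + 2) - p =
        j + (n + 1 : ℕ) * (p + q + 2) + (p + q + 2) - p by push_cast; ring]
      exact one _
  obtain ⟨n, rfl⟩ := Nat.exists_eq_add_of_le' hk
  have := key n
  rwa [ZMod.natCast_self, zero_mul, add_zero, lt_mul_iff_one_lt_right (z0 _)] at this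

theorem main (hk : 0 < k) (hpq : p ≤ q) (hB : ∀ j, 0 ≤ B j) :
    ((∀ x, Sol p q B x → BddAbove (x '' Ici (-q))) ↔ Per p q B) ∧
      (¬Per p q B → ∀ x, Sol p q B x → ¬BddAbove (x '' Ici (-q))) ∧
      ((∀ j, 0 < B j) → k.Coprime (p + q + 2) → Per p q B) ∧
      ((∀ j, 0 < B j) → Per p q B → ∀ j, 1 < ∏ i ∈ Finset.range k,
        (B (j + i * (p + q + 2) + (q + 1)) + 1 / B (j + i * (p + q + 2)))) := by
  have : NeZero k := ⟨hk.ne'⟩
  obtain ⟨x, S⟩ := exSol p q B
  exact ⟨⟨fun h => nec S hpq hB (h x S), fun h x S => bdd S hpq hB h⟩,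
    fun h x S hx => h (nec S hpq hB hx), coprime, fun h h' => prod h h' hk⟩

theorem sharp (hk : 0 < k) {g : ℕ} (g1 : g ∣ k) (g2 : g ∣ p + q + 2) (g3 : ¬g ∣ q + 1) :
    ∃ B : ZMod k → ℝ, (∀ j, 0 < B j) ∧ (∀ t, (∀ j, B (j + t) = B j) → t = 0) ∧ ¬Per p q B := by
  set φ := ZMod.castHom g1 (ZMod g)
  have h0 : ∀ j : ZMod k, 0 < if j = 0 then (4 : ℝ) else if φ j = 0 then 3 else 1 / 3 := fun j => by
    split_ifs <;> norm_num
  refine ⟨_, h0, fun t ht => by_contra fun h => ?_, fun h => (prod h0 h hk 0).not_ge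
    (Finset.prod_le_one (fun i _ => (add_pos (h0 _) (one_div_pos.2 (h0 _))).le) fun i _ => ?_)⟩
  · have := ht 0
    simp only [zero_add, h, if_false, if_true] at this
    split_ifs at this <;> norm_num at this
  have e1 : φ (0 + i * (p + q + 2)) = 0 := by
    have := (ZMod.natCast_eq_zero_iff _ _).2 g2
    push_cast at this
    simp only [zero_add, map_mul, map_add, map_natCast, map_ofNat, this, mul_zero]
  have e2 : φ (0 + i * (p + q + 2) + (q + 1)) ≠ 0 := by
    rw [map_add, e1, zero_add, ← Nat.cast_succ, map_natCast]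
    exact fun h => g3 ((ZMod.natCast_eq_zero_iff _ _).1 h)
  rw [if_neg fun h => e2 (by rw [h, map_zero]), if_neg e2, if_pos e1]
  split_ifs <;> norm_num

end Pool.Agent.H.MP_975ca8_an
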